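import Pool.Agent.K3h51.HY.Spk2

/-! # Project HY (helper47): brick SPK3 (helper51) -/

set_option autoImplicit false

namespace Pool.Agent.K3h51.HY

open Pool.Agent.K3h47.HY

variable {n r M : ℕ} {e : Fin r → ℕ} {Λ : AddSubgroup (∀ i, ZMod (e i))}

theorem zmod3 (a b : ZMod 3) (ha : a ≠ 0) (hb : b ≠ 0) (h : 1 + a + b = 0) : a = b := by
  revert a b
  decide

theorem res_zero (q m : ℕ) : res q (0 : ZMod m) = 0 := ZMod.cast_zero

/-- the degree condition modulo `3` -/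
theorem deg3 (h : Cmb n r M e Λ) (i₀ : Fin r) (hM : M = 3 * e i₀)
    (hj : ∀ j, j ≠ i₀ → e j = M) (J : Finset (Fin r)) (hi₀ : i₀ ∉ J) (j : Fin r) (hjJ : j ∈ J)
    (t1 t2 t3 : Fin r) (h12 : t1 ≠ t2) (h13 : t1 ≠ t3) (h23 : t2 ≠ t3)
    (hT : Finset.univ \ insert i₀ J = {t1, t2, t3}) (ρ : ∀ i, ZMod (e i)) (hρ : ρ ∈ Λ)
    (hρJ : ∀ i ∈ J.erase j, ρ i = 0) :
    res 3 (ρ j) + res 3 (ρ t1) + res 3 (ρ t2) + res 3 (ρ t3) = 0 := by
  classical
  have hne := ne0 h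
  have hMpos : 0 < M := Nat.pos_of_ne_zero h.M0
  have h1 : 3 ∣ ∑ i, (ρ i).val * (M / e i) :=
    (Dvd.intro _ hM.symm).trans (h.deg ρ hρ)
  rw [← ZMod.natCast_eq_zero_iff, Nat.cast_sum] at h1
  have h2 : ∀ i, i ≠ i₀ → (((ρ i).val * (M / e i) : ℕ) : ZMod 3) = res 3 (ρ i) := by
    intro i hi
    have h3 : M / e i = 1 := by rw [hj i hi, Nat.div_self hMpos]
    rw [h3, mul_one, res_val]
  have h3 : (((ρ i₀).val * (M / e i₀) : ℕ) : ZMod 3) = 0 := by
    have : M / e i₀ = 3 := by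
      rw [hM]
      exact Nat.mul_div_cancel _ (by have := h.two i₀; omega)
    rw [this, ZMod.natCast_eq_zero_iff]
    exact Dvd.intro_left _ rfl
  rw [← Finset.sum_sdiff (Finset.subset_univ (insert i₀ J)), Finset.sum_insert hi₀, h3, hT,
    Finset.sum_insert (by simp [h12, h13]), Finset.sum_insert (by simp [h23]),
    Finset.sum_singleton, ← Finset.add_sum_erase J _ hjJ,
    Finset.sum_eq_zero (s := J.erase j) (fun i hi => by
      rw [hρJ i hi, ZMod.val_zero, zero_mul, Nat.cast_zero])] at h1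
  have ht : ∀ t ∈ ({t1, t2, t3} : Finset (Fin r)), t ≠ i₀ := by
    intro t ht
    rw [← hT] at ht
    simp only [Finset.mem_sdiff, Finset.mem_univ, true_and, Finset.mem_insert, not_or] at ht
    exact ht.1
  rw [h2 t1 (ht t1 (by simp)), h2 t2 (ht t2 (by simp)), h2 t3 (ht t3 (by simp)),
    h2 j (fun h4 => hi₀ (h4 ▸ hjJ))] at h1
  linear_combination h1

theorem claimB (h : Cmb n r M e Λ) (hn : 2 ≤ n) (i₀ : Fin r) (hM : M = 3 * e i₀)
    (hj : ∀ j, j ≠ i₀ → e j = M) (J : Finset (Fin r)) (hJ : J.card + 1 = n) (hi₀ : i₀ ∉ J)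
    (t1 t2 t3 : Fin r) (h12 : t1 ≠ t2) (h13 : t1 ≠ t3) (h23 : t2 ≠ t3)
    (hT : Finset.univ \ insert i₀ J = {t1, t2, t3}) :
    ∃ μ ∈ Λ, (∀ i ∈ J, μ i = 0) ∧ (μ t1).val % 3 = 0 ∧ (μ t2).val % 3 ≠ 0 := by
  classical
  have hne := ne0 h
  by_contra hcon
  push Not at hcon
  obtain ⟨j, hjJ⟩ := Finset.card_pos.1 (show 0 < J.card by omega)
  have hJ'card : (J.erase j).card + 2 = n := by
    rw [Finset.card_erase_of_mem hjJ]; omega
  have hjJ' : j ∉ J.erase j := Finset.notMem_erase j J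
  have hmem : ∀ t ∈ ({t1, t2, t3} : Finset (Fin r)), t ≠ i₀ ∧ t ∉ J := by
    intro t ht
    rw [← hT] at ht
    simpa only [Finset.mem_sdiff, Finset.mem_univ, true_and, Finset.mem_insert, not_or] using ht
  have m1 := hmem t1 (by simp)
  have m2 := hmem t2 (by simp)
  have m3 := hmem t3 (by simp)
  have n1 : t1 ∉ J.erase j := fun h1 => m1.2 (Finset.mem_of_mem_erase h1)
  have n2 : t2 ∉ J.erase j := fun h1 => m2.2 (Finset.mem_of_mem_erase h1)
  have n3 : t3 ∉ J.erase j := fun h1 => m3.2 (Finset.mem_of_mem_erase h1)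
  have j1 : j ≠ t1 := fun h1 => m1.2 (h1 ▸ hjJ)
  have j2 : j ≠ t2 := fun h1 => m2.2 (h1 ▸ hjJ)
  have j3 : j ≠ t3 := fun h1 => m3.2 (h1 ▸ hjJ)
  have hji : j ≠ i₀ := fun h1 => hi₀ (h1 ▸ hjJ)
  have d : ∀ t, t ≠ i₀ → 3 ∣ e t := fun t ht => by rw [hj t ht, hM]; exact Dvd.intro _ rfl
  have hD := deg3 h i₀ hM hj J hi₀ j hjJ t1 t2 t3 h12 h13 h23 hT
  have hcard : (insert t1 (insert j (J.erase j))).card ≤ n := by
    rw [Finset.card_insert_of_notMem, Finset.card_insert_of_notMem hjJ']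
    · omega
    · rw [Finset.mem_insert, not_or]
      exact ⟨j1.symm, n1⟩
  obtain ⟨a, ha, ha'⟩ := pre h (insert t1 (insert j (J.erase j))) hcard
    (fun i => if i = j then 1 else 0)
  obtain ⟨b, hb, hb'⟩ := pre h (insert t1 (insert j (J.erase j))) hcard
    (fun i => if i = t1 then 1 else 0)
  have haJ : ∀ i ∈ J.erase j, a i = 0 := fun i hi => by
    rw [ha' i (Finset.mem_insert_of_mem (Finset.mem_insert_of_mem hi)), if_neg]
    rintro rfl
    exact hjJ' hi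
  have hbJ : ∀ i ∈ J.erase j, b i = 0 := fun i hi => by
    rw [hb' i (Finset.mem_insert_of_mem (Finset.mem_insert_of_mem hi)), if_neg]
    rintro rfl
    exact n1 hi
  have haj : a j = 1 := by
    rw [ha' j (Finset.mem_insert_of_mem (Finset.mem_insert_self _ _)), if_pos rfl]
  have ha1 : a t1 = 0 := by rw [ha' t1 (Finset.mem_insert_self _ _), if_neg j1.symm]
  have hbj : b j = 0 := by
    rw [hb' j (Finset.mem_insert_of_mem (Finset.mem_insert_self _ _)), if_neg j1]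
  have hb1 : b t1 = 1 := by rw [hb' t1 (Finset.mem_insert_self _ _), if_pos rfl]
  have hP2 : ∀ l ∈ Λ, (∀ i ∈ J.erase j, l i = 0) → l j = 0 → l t1 = 0 → res 3 (l t2) = 0 := by
    intro l hl hlJ hlj hlt
    have h2 := hcon l hl (fun i hi => by
      by_cases hij : i = j
      · rw [hij, hlj]
      · exact hlJ i (Finset.mem_erase.2 ⟨hij, hi⟩)) (by rw [hlt, ZMod.val_zero])
    rw [res_val, ZMod.natCast_eq_zero_iff]
    omega
  have hP3 : ∀ l ∈ Λ, (∀ i ∈ J.erase j, l i = 0) → l j = 0 → l t1 = 0 → res 3 (l t3) = 0 := by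
    intro l hl hlJ hlj hlt
    have h2 := hD l hl hlJ
    rw [hP2 l hl hlJ hlj hlt, hlj, hlt, res_zero, res_zero] at h2
    simpa using h2
  obtain ⟨k1, k2, k3⟩ := lin h 3 (J.erase j) j t1 t2 (by omega) hjJ' n1 n2 j2 h12 (d t2 m2.1)
    (by norm_num) hP2 a ha haJ haj ha1 b hb hbJ hbj hb1
  obtain ⟨l1, l2, l3⟩ := lin h 3 (J.erase j) j t1 t3 (by omega) hjJ' n1 n3 j3 h13 (d t3 m3.1)
    (by norm_num) hP3 a ha haJ haj ha1 b hb hbJ hbj hb1
  have ea : res 3 (a t2) = res 3 (a t3) := by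
    refine zmod3 _ _ k2 l2 ?_
    have h2 := hD a ha haJ
    rw [haj, ha1, res_zero, res_hom (d j hji), map_one] at h2
    linear_combination h2
  have eb : res 3 (b t2) = res 3 (b t3) := by
    refine zmod3 _ _ k3 l3 ?_
    have h2 := hD b hb hbJ
    rw [hbj, hb1, res_zero, res_hom (d t1 m1.1), map_one] at h2
    linear_combination h2
  obtain ⟨l, hl, hl'⟩ := pre h (insert t2 (insert t3 (J.erase j))) (by
    rw [Finset.card_insert_of_notMem, Finset.card_insert_of_notMem n3]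
    · omega
    · rw [Finset.mem_insert, not_or]
      exact ⟨h23, n2⟩) (fun i => if i = t2 then 1 else 0)
  have hlJ : ∀ i ∈ J.erase j, l i = 0 := fun i hi => by
    rw [hl' i (Finset.mem_insert_of_mem (Finset.mem_insert_of_mem hi)), if_neg]
    rintro rfl
    exact n2 hi
  have e1 := k1 l hl hlJ
  have e2 := l1 l hl hlJ
  have q1 : l t2 = 1 := by rw [hl' t2 (Finset.mem_insert_self _ _), if_pos rfl]
  have q2 : l t3 = 0 := by
    rw [hl' t3 (Finset.mem_insert_of_mem (Finset.mem_insert_self _ _)), if_neg h23.symm]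
  rw [ea, eb, ← e2, q1, q2, res_hom (d t2 m2.1), res_zero, map_one] at e1
  exact one_ne_zero e1

/-- shifting by a multiple of `e i₀ • l` -/
theorem shift (h : Cmb n r M e Λ) (i₀ : Fin r) (J : Finset (Fin r)) (x y : ∀ i, ZMod (e i))
    (hy : y - x ∈ Λ) (l : ∀ i, ZMod (e i)) (hl : l ∈ Λ) (hlJ : ∀ i ∈ J, l i = 0) (c : ℕ) :
    ∃ y', y' - x ∈ Λ ∧ (∀ i ∈ J, y' i = y i) ∧ y' i₀ = y i₀ ∧
      ∀ i, y' i = y i + ((e i₀ * (c * (l i).val) : ℕ) : ZMod (e i)) := by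
  have hne := ne0 h
  have key : ∀ i, (y + c • (e i₀ • l)) i = y i + ((e i₀ * (c * (l i).val) : ℕ) : ZMod (e i)) := by
    intro i
    rw [Pi.add_apply, Pi.smul_apply, Pi.smul_apply, nsmul_eq_mul, nsmul_eq_mul]
    push_cast
    rw [ZMod.natCast_zmod_val]
    ring
  refine ⟨y + c • (e i₀ • l), ?_, fun i hi => ?_, ?_, key⟩
  · rw [add_sub_right_comm]
    exact Λ.add_mem hy (Λ.nsmul_mem (Λ.nsmul_mem hl _) _)
  · rw [key, hlJ i hi, ZMod.val_zero, mul_zero, mul_zero, Nat.cast_zero, add_zero]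
  · rw [key, Nat.cast_mul, ZMod.natCast_self, zero_mul, add_zero]

theorem t_SPK3 : S_SPK3 := by
  classical
  intro n r M e Λ h hn hr i₀ hM hj J x hJ hi₀
  have hne := ne0 h
  have hM' : M = e i₀ * 3 := by rw [hM, mul_comm]
  have hs : 0 < e i₀ := by have := h.two i₀; omega
  obtain ⟨t1, t2, t3, h12, h13, h23, hT⟩ := Finset.card_eq_three.1 (card_T hr i₀ J hJ hi₀)
  have hmem : ∀ t ∈ ({t1, t2, t3} : Finset (Fin r)), t ≠ i₀ ∧ t ∉ J := by
    intro t ht
    rw [← hT] at ht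
    simpa only [Finset.mem_sdiff, Finset.mem_univ, true_and, Finset.mem_insert, not_or] using ht
  have m1 := hmem t1 (by simp)
  have m2 := hmem t2 (by simp)
  obtain ⟨μ, hμ, hμJ, hμ1, hμ2⟩ := claimB h hn i₀ hM hj J hJ hi₀ t1 t2 t3 h12 h13 h23 hT
  obtain ⟨z, hz, hz'⟩ := top h (insert i₀ J) (by rw [Finset.card_insert_of_notMem hi₀]; omega) x
  obtain ⟨l, hl, hl'⟩ := pre h (insert t1 J) (by
    rw [Finset.card_insert_of_notMem m1.2]; omega) (fun i => if i = t1 then 1 else 0)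
  have hlJ : ∀ i ∈ J, l i = 0 := fun i hi => by
    rw [hl' i (Finset.mem_insert_of_mem hi), if_neg]
    rintro rfl
    exact m1.2 hi
  have hl1 : (l t1).val = 1 := by
    rw [hl' t1 (Finset.mem_insert_self _ _), if_pos rfl]
    have h2 := h.two t1
    have : Fact (1 < e t1) := ⟨by omega⟩
    exact ZMod.val_one _
  obtain ⟨y, hy, hyJ, hy₀, hyc⟩ := shift h i₀ J x z hz l hl hlJ (2 + 2 * ((z t1).val / e i₀))
  obtain ⟨w, hw, hwJ, hw₀, hwc⟩ := shift h i₀ J x y hy μ hμ hμJ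
    ((μ t2).val * (2 + 2 * ((y t2).val / e i₀)))
  have d1 : (y t1).val / e i₀ = 2 := by
    rw [hyc t1, div_add_mul ((hj t1 m1.1).trans hM'), hl1]
    omega
  have d2 : (w t1).val / e i₀ = 2 := by
    rw [hwc t1, div_add_mul ((hj t1 m1.1).trans hM'), d1]
    obtain ⟨k, hk⟩ : ∃ k, (μ t1).val = 3 * k := ⟨(μ t1).val / 3, by omega⟩
    rw [hk]
    have : 2 + (μ t2).val * (2 + 2 * ((y t2).val / e i₀)) * (3 * k) =
        2 + 3 * ((μ t2).val * (2 + 2 * ((y t2).val / e i₀)) * k) := by ring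
    rw [this, Nat.add_mul_mod_self_left]
  have d3 : (w t2).val / e i₀ = 2 := by
    rw [hwc t2, div_add_mul ((hj t2 m2.1).trans hM')]
    have hm : (μ t2).val % 3 = 1 ∨ (μ t2).val % 3 = 2 := by omega
    have hm2 : (μ t2).val * (μ t2).val % 3 = 1 := by
      rcases hm with hm | hm <;> rw [Nat.mul_mod, hm]
    obtain ⟨k, hk⟩ : ∃ k, (μ t2).val * (μ t2).val = 3 * k + 1 :=
      ⟨(μ t2).val * (μ t2).val / 3, by omega⟩
    have : (y t2).val / e i₀ + (μ t2).val * (2 + 2 * ((y t2).val / e i₀)) * (μ t2).val =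
        2 + 3 * ((y t2).val / e i₀ + k * (2 + 2 * ((y t2).val / e i₀))) := by
      have e1 : (μ t2).val * (2 + 2 * ((y t2).val / e i₀)) * (μ t2).val =
        (μ t2).val * (μ t2).val * (2 + 2 * ((y t2).val / e i₀)) := by ring
      rw [e1, hk]
      ring
    rw [this, Nat.add_mul_mod_self_left]
  have hwJ' : ∀ i ∈ J, (w i).val = e i - 1 := fun i hi => by
    rw [hwJ i hi, hyJ i hi]
    exact hz' i (Finset.mem_insert_of_mem hi)
  have hw₀' : (w i₀).val = e i₀ - 1 := by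
    rw [hw₀, hy₀]
    exact hz' i₀ (Finset.mem_insert_self _ _)
  refine ⟨w, hw, hwJ', ?_⟩
  rw [val_split h i₀ 3 hM' hj J hJ hi₀ w hwJ' hw₀', hT,
    Finset.sum_insert (by simp [h12, h13]), Finset.sum_insert (by simp [h23]),
    Finset.sum_singleton]
  have g1 : 2 * e i₀ ≤ (w t1).val := by
    rw [← d2]
    exact Nat.div_mul_le_self _ _
  have g2 : 2 * e i₀ ≤ (w t2).val := by
    rw [← d3]
    exact Nat.div_mul_le_self _ _
  obtain ⟨k, rfl⟩ : ∃ k, n = k + 1 := ⟨n - 1, by omega⟩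
  obtain ⟨s, hs'⟩ : ∃ s, e i₀ = s + 1 := ⟨e i₀ - 1, by omega⟩
  rw [hs'] at g1 g2 hM ⊢
  have e3 : k + 1 - 1 = k := by omega
  have e4 : M - 1 = 3 * s + 2 := by omega
  rw [e3, e4, hM]
  have e5 : s + 1 - 1 = s := by omega
  rw [e5]
  nlinarith

end Pool.Agent.K3h51.HY
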