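import Pool.Agent.K3h47.HY.Stm2

/-! # Project HZ (helper47): brick TRI2 (helper51) -/

set_option autoImplicit false

namespace Pool.Agent.K3h51.HY

open Pool.Agent.K3h47.HY

/-- the points of the coset in the triangle -/
def CC (W : AddSubgroup (ℤ × ℤ)) (p₀ : ℤ × ℤ) (k : ℤ) (p : ℤ × ℤ) : Prop :=
  p - p₀ ∈ W ∧ 0 ≤ p.1 ∧ 0 ≤ p.2 ∧ p.1 + p.2 ≤ k

theorem nonneg_of (D x : ℤ) (hD : 0 < D) (h : 0 ≤ D * x) : 0 ≤ x := by
  by_contra hx
  push Not at hx
  nlinarith

/-- a point of the coset which is a convex combination of three points of the triangle -/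
theorem inside (W : AddSubgroup (ℤ × ℤ)) (p₀ : ℤ × ℤ) (k : ℤ) (P Q S w : ℤ × ℤ) (D a b : ℤ)
    (hP : CC W p₀ k P) (hQ : CC W p₀ k Q) (hS : CC W p₀ k S) (hw : w ∈ W) (hD : 0 < D)
    (h1 : D * w.1 = a * (Q.1 - P.1) + b * (S.1 - P.1))
    (h2 : D * w.2 = a * (Q.2 - P.2) + b * (S.2 - P.2)) (ha : 0 ≤ a) (hb : 0 ≤ b)
    (hab : a + b ≤ D) : CC W p₀ k (P + w) := by
  obtain ⟨p1, p2, p3, p4⟩ := hP
  obtain ⟨q1, q2, q3, q4⟩ := hQ
  obtain ⟨s1, s2, s3, s4⟩ := hS
  have hc : 0 ≤ D - a - b := by linarith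
  refine ⟨?_, ?_, ?_, ?_⟩
  · rw [add_sub_right_comm]
    exact W.add_mem p1 hw
  · rw [Prod.fst_add]
    apply nonneg_of D _ hD
    have : D * (P.1 + w.1) = (D - a - b) * P.1 + a * Q.1 + b * S.1 := by linear_combination h1
    rw [this]
    positivity
  · rw [Prod.snd_add]
    apply nonneg_of D _ hD
    have : D * (P.2 + w.2) = (D - a - b) * P.2 + a * Q.2 + b * S.2 := by linear_combination h2
    rw [this]
    positivity
  · rw [Prod.fst_add, Prod.snd_add, ← sub_nonneg]
    apply nonneg_of D _ hD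
    have : D * (k - (P.1 + w.1 + (P.2 + w.2))) = (D - a - b) * (k - (P.1 + P.2)) +
        a * (k - (Q.1 + Q.2)) + b * (k - (S.1 + S.2)) := by linear_combination -h1 - h2
    rw [this]
    have e1 : 0 ≤ k - (P.1 + P.2) := by linarith
    have e2 : 0 ≤ k - (Q.1 + Q.2) := by linarith
    have e3 : 0 ≤ k - (S.1 + S.2) := by linarith
    positivity

theorem minimal (W : AddSubgroup (ℤ × ℤ)) (p₀ : ℤ × ℤ) (k : ℤ) (G : AddSubgroup (ℤ × ℤ))
    (hG : ∀ p q : ℤ × ℤ, CC W p₀ k p → CC W p₀ k q → p - q ∈ G) :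
    ∀ n : ℕ, ∀ P Q S : ℤ × ℤ, CC W p₀ k P → CC W p₀ k Q → CC W p₀ k S →
      (Q.1 - P.1) * (S.2 - P.2) - (Q.2 - P.2) * (S.1 - P.1) = n → 0 < n →
      ∀ w ∈ W, w ∈ G := by
  intro n
  induction n using Nat.strong_induction_on with
  | _ n ih =>
  intro P Q S hP hQ hS hdet hn w hw
  have hD : (0 : ℤ) < n := by exact_mod_cast hn
  have hu : Q - P ∈ W := by
    have := W.sub_mem hQ.1 hP.1
    rwa [sub_sub_sub_cancel_right] at this
  have hv : S - P ∈ W := by
    have := W.sub_mem hS.1 hP.1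
    rwa [sub_sub_sub_cancel_right] at this
  have huG : Q - P ∈ G := hG Q P hQ hP
  have hvG : S - P ∈ G := hG S P hS hP
  -- division
  obtain ⟨w', hw'W, hww', a, b, ha0, haD, hb0, hbD, h1, h2⟩ : ∃ w' ∈ W, (w' ∈ G → w ∈ G) ∧
      ∃ a b : ℤ, 0 ≤ a ∧ a < n ∧ 0 ≤ b ∧ b < n ∧
        w'.1 * (S.2 - P.2) - w'.2 * (S.1 - P.1) = a ∧
        (Q.1 - P.1) * w'.2 - (Q.2 - P.2) * w'.1 = b := by
    set A := w.1 * (S.2 - P.2) - w.2 * (S.1 - P.1) with hA
    set B := (Q.1 - P.1) * w.2 - (Q.2 - P.2) * w.1 with hB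
    refine ⟨w - (A / n) • (Q - P) - (B / n) • (S - P), ?_, fun h => ?_, A % n, B % n,
      Int.emod_nonneg _ hD.ne', Int.emod_lt_of_pos _ hD, Int.emod_nonneg _ hD.ne',
      Int.emod_lt_of_pos _ hD, ?_, ?_⟩
    · exact W.sub_mem (W.sub_mem hw (W.zsmul_mem hu _)) (W.zsmul_mem hv _)
    · have := G.add_mem (G.add_mem h (G.zsmul_mem hvG (B / n))) (G.zsmul_mem huG (A / n))
      rwa [sub_add_cancel, sub_add_cancel] at this
    · simp only [Prod.fst_sub, Prod.snd_sub, Prod.smul_fst, Prod.smul_snd, smul_eq_mul]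
      have e1 := Int.emod_add_mul_ediv A n
      linear_combination hA.symm - (A / n) * hdet - e1
    · simp only [Prod.fst_sub, Prod.snd_sub, Prod.smul_fst, Prod.smul_snd, smul_eq_mul]
      have e1 := Int.emod_add_mul_ediv B n
      linear_combination hB.symm - (B / n) * hdet - e1
  have h3 : (n : ℤ) * w'.1 = a * (Q.1 - P.1) + b * (S.1 - P.1) := by
    rw [← h1, ← h2, ← hdet]; ring
  have h4 : (n : ℤ) * w'.2 = a * (Q.2 - P.2) + b * (S.2 - P.2) := by
    rw [← h1, ← h2, ← hdet]; ring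
  rcases le_or_gt (a + b) n with hab | hab
  · have hX := inside W p₀ k P Q S w' n a b hP hQ hS hw'W hD h3 h4 ha0 hb0 hab
    rcases eq_or_lt_of_le ha0 with ha | ha
    · rcases eq_or_lt_of_le hb0 with hb | hb
      · -- both are zero
        apply hww'
        have e1 : w' = 0 := by
          rw [← ha, ← hb, zero_mul, zero_mul, zero_add] at h3 h4
          rcases mul_eq_zero.1 h3 with h | h
          · exact absurd h hD.ne'
          · rcases mul_eq_zero.1 h4 with h' | h'
            · exact absurd h' hD.ne'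
            · exact Prod.ext h h'
        rw [e1]
        exact G.zero_mem
      · refine ih b.toNat (by omega) P Q (P + w') hP hQ hX ?_ (by omega) w hw
        rw [Prod.fst_add, Prod.snd_add, Int.toNat_of_nonneg hb.le]
        linear_combination h2
    · refine ih a.toNat (by omega) P (P + w') S hP hX hS ?_ (by omega) w hw
      rw [Prod.fst_add, Prod.snd_add, Int.toNat_of_nonneg ha.le]
      linear_combination h1
  · have hX := inside W p₀ k P Q S ((Q - P) + (S - P) - w') n (n - a) (n - b) hP hQ hS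
      (W.sub_mem (W.add_mem hu hv) hw'W) hD
      (by simp only [Prod.fst_sub, Prod.fst_add]; linear_combination -h3)
      (by simp only [Prod.snd_sub, Prod.snd_add]; linear_combination -h4)
      (by linarith) (by linarith) (by linarith)
    refine ih (n - a).toNat (by omega) P (P + ((Q - P) + (S - P) - w')) S hP hX hS ?_
      (by omega) w hw
    rw [Int.toNat_of_nonneg (by linarith)]
    simp only [Prod.fst_sub, Prod.snd_sub, Prod.fst_add, Prod.snd_add]
    linear_combination hdet - h1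

theorem t_TRI2 : S_TRI2 := by
  intro W p₀ M k hM hMk hW1 hW2 h1 h2 h3 G hG'
  have hG : ∀ p q : ℤ × ℤ, CC W p₀ k p → CC W p₀ k q → p - q ∈ G := by
    rintro p q ⟨p1, p2, p3, p4⟩ ⟨q1, q2, q3, q4⟩
    exact hG' p q p1 q1 p2 p3 p4 q2 q3 q4
  -- the three vertices
  have v1 : ((0, 0) : ℤ × ℤ) - p₀ ∈ W → ((M, 0) : ℤ × ℤ) ∈ G ∧ ((0, M) : ℤ × ℤ) ∈ G := by
    intro h
    have c0 : CC W p₀ k (0, 0) := ⟨h, le_rfl, le_rfl, by simp only; omega⟩
    have c1 : CC W p₀ k (M, 0) := by
      refine ⟨?_, by simp only; omega, le_rfl, by simp only; omega⟩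
      have := W.add_mem h hW1
      rwa [sub_add_eq_add_sub, Prod.mk_add_mk, zero_add, zero_add] at this
    have c2 : CC W p₀ k (0, M) := by
      refine ⟨?_, le_rfl, by simp only; omega, by simp only; omega⟩
      have := W.add_mem h hW2
      rwa [sub_add_eq_add_sub, Prod.mk_add_mk, zero_add, zero_add] at this
    constructor
    · have := hG _ _ c1 c0
      rwa [Prod.mk_sub_mk, sub_zero, sub_zero] at this
    · have := hG _ _ c2 c0
      rwa [Prod.mk_sub_mk, sub_zero, sub_zero] at this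
  have v2 : ((k, 0) : ℤ × ℤ) - p₀ ∈ W → ((M, 0) : ℤ × ℤ) ∈ G ∧ ((0, M) : ℤ × ℤ) ∈ G := by
    intro h
    have c0 : CC W p₀ k (k, 0) := ⟨h, by simp only; omega, le_rfl, by simp only; omega⟩
    have c1 : CC W p₀ k (k - M, 0) := by
      refine ⟨?_, by simp only; omega, le_rfl, by simp only; omega⟩
      have := W.sub_mem h hW1
      have e : ((k - M, 0) : ℤ × ℤ) - p₀ = ((k, 0) : ℤ × ℤ) - p₀ - (M, 0) :=
        Prod.ext (by simp only [Prod.fst_sub]; ring) (by simp only [Prod.snd_sub]; ring)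
      rwa [e]
    have c2 : CC W p₀ k (k - M, M) := by
      refine ⟨?_, by simp only; omega, by simp only; omega, by simp only; omega⟩
      have := W.add_mem c1.1 hW2
      rwa [sub_add_eq_add_sub, Prod.mk_add_mk, zero_add, add_zero] at this
    constructor
    · have := hG _ _ c0 c1
      rwa [Prod.mk_sub_mk, sub_sub_cancel, sub_zero] at this
    · have := hG _ _ c2 c1
      rwa [Prod.mk_sub_mk, sub_self, sub_zero] at this
  have v3 : ((0, k) : ℤ × ℤ) - p₀ ∈ W → ((M, 0) : ℤ × ℤ) ∈ G ∧ ((0, M) : ℤ × ℤ) ∈ G := by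
    intro h
    have c0 : CC W p₀ k (0, k) := ⟨h, le_rfl, by simp only; omega, by simp only; omega⟩
    have c1 : CC W p₀ k (0, k - M) := by
      refine ⟨?_, le_rfl, by simp only; omega, by simp only; omega⟩
      have := W.sub_mem h hW2
      have e : ((0, k - M) : ℤ × ℤ) - p₀ = ((0, k) : ℤ × ℤ) - p₀ - (0, M) :=
        Prod.ext (by simp only [Prod.fst_sub]; ring) (by simp only [Prod.snd_sub]; ring)
      rwa [e]
    have c2 : CC W p₀ k (M, k - M) := by
      refine ⟨?_, by simp only; omega, by simp only; omega, by simp only; omega⟩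
      have := W.add_mem c1.1 hW1
      rwa [sub_add_eq_add_sub, Prod.mk_add_mk, zero_add, add_zero] at this
    constructor
    · have := hG _ _ c2 c1
      rwa [Prod.mk_sub_mk, sub_zero, sub_self] at this
    · have := hG _ _ c0 c1
      rwa [Prod.mk_sub_mk, sub_self, sub_sub_cancel] at this
  obtain ⟨⟨x1, b⟩, p1, p2, p3, p4⟩ := h1
  obtain ⟨⟨a, y1⟩, q1, q2, q3, q4⟩ := h2
  obtain ⟨⟨s, z1⟩, r1, r2, r3, r4⟩ := h3
  simp only at p2 p3 p4 q2 q3 q4 r2 r3 r4
  subst p2 q2
  obtain rfl : z1 = k - s := by omega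
  by_cases hb0 : b = 0
  · subst hb0; exact v1 p1
  by_cases ha0 : a = 0
  · subst ha0; exact v1 q1
  by_cases hak : a = k
  · subst hak; exact v2 q1
  by_cases hsk : s = k
  · subst hsk
    rw [sub_self] at r1
    exact v2 r1
  by_cases hbk : b = k
  · subst hbk; exact v3 p1
  by_cases hs0 : s = 0
  · subst hs0
    rw [sub_zero] at r1
    exact v3 r1
  have hb : 0 < b := by omega
  have hb' : 0 < k - b := by omega
  have ha : 0 < a := by omega
  have ha' : 0 < k - a := by omega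
  have hs : 0 < s := by omega
  have hs' : 0 < k - s := by omega
  have hk : 0 < k := by omega
  have hpos : 0 < (a - 0) * (k - s - b) - (0 - b) * (s - 0) := by
    have e1 : k * ((a - 0) * (k - s - b) - (0 - b) * (s - 0)) =
        b * s * (k - a) + (k - b) * a * (k - s) := by ring
    have e2 : 0 < b * s * (k - a) + (k - b) * a * (k - s) := by positivity
    rw [← e1] at e2
    by_contra hcon
    push Not at hcon
    nlinarith
  have hall := minimal W p₀ k G hG _ (0, b) (a, 0) (s, k - s) ⟨p1, le_rfl, p3, by simp only; omega⟩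
    ⟨q1, q3, le_rfl, by simp only; omega⟩ ⟨r1, r3, r4, by simp only; omega⟩
    (Int.toNat_of_nonneg hpos.le).symm (by
      have : 0 < ((a - 0) * (k - s - b) - (0 - b) * (s - 0)).toNat := by omega
      exact this)
  exact ⟨hall _ hW1, hall _ hW2⟩

end Pool.Agent.K3h51.HY
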