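import Pool.Agent.K3h47.HY.Stm

/-! # Project HY (helper47): tools for the special cases (helper51) -/

set_option autoImplicit false

namespace Pool.Agent.K3h51.HY

open Pool.Agent.K3h47.HY

theorem val_add_mul {m s ν : ℕ} [NeZero m] (hm : m = s * ν) (y : ZMod m) (k : ℕ) :
    (y + ((s * k : ℕ) : ZMod m)).val = y.val % s + s * ((y.val / s + k) % ν) := by
  subst hm
  have hs : 0 < s := by
    rcases Nat.eq_zero_or_pos s with h | h
    · exact absurd (by rw [h, zero_mul]) (NeZero.ne (s * ν))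
    · exact h
  rw [ZMod.val_add, ZMod.val_natCast, Nat.add_mod_mod, Nat.mod_mul, Nat.add_mul_mod_self_left,
    Nat.add_mul_div_left _ _ hs]

theorem div_add_mul {m s ν : ℕ} [NeZero m] (hm : m = s * ν) (y : ZMod m) (k : ℕ) :
    (y + ((s * k : ℕ) : ZMod m)).val / s = (y.val / s + k) % ν := by
  have hs : 0 < s := by
    rcases Nat.eq_zero_or_pos s with h | h
    · exact absurd (by rw [hm, h, zero_mul]) (NeZero.ne m)
    · exact h
  rw [val_add_mul hm, Nat.add_mul_div_left _ _ hs, Nat.div_eq_of_lt (Nat.mod_lt _ hs), zero_add]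

theorem mod_add_mul {m s ν : ℕ} [NeZero m] (hm : m = s * ν) (y : ZMod m) (k : ℕ) :
    (y + ((s * k : ℕ) : ZMod m)).val % s = y.val % s := by
  rw [val_add_mul hm, Nat.add_mul_mod_self_left, Nat.mod_mod]

theorem nsmul_eq {m : ℕ} [NeZero m] (s : ℕ) (a : ZMod m) :
    s • a = ((s * a.val : ℕ) : ZMod m) := by
  rw [Nat.cast_mul, ZMod.natCast_zmod_val, nsmul_eq_mul]

theorem sum_mod (ν q : ℕ) : ∑ c ∈ Finset.range ν, (q + c) % ν = ∑ k ∈ Finset.range ν, k := by
  have h1 : ∑ c ∈ Finset.range ν, (q + c) % ν = ∑ j ∈ Finset.Ico q (q + ν), j % ν := by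
    rw [Finset.sum_Ico_eq_sum_range, Nat.add_sub_cancel_left]
  rw [h1, ← Nat.image_Ico_mod q ν, Finset.sum_image (fun a ha b hb hab =>
    Nat.mod_injOn_Ico q ν ha hb hab)]

theorem sum_digit {m s ν : ℕ} [NeZero m] (hm : m = s * ν) (y : ZMod m) :
    (∑ c ∈ Finset.range ν, (y + ((s * c : ℕ) : ZMod m)).val / s) * 2 = ν * (ν - 1) := by
  rw [Finset.sum_congr rfl fun c _ => div_add_mul hm y c, sum_mod, Finset.sum_range_id_mul_two]

variable {n r M : ℕ} {e : Fin r → ℕ} {Λ : AddSubgroup (∀ i, ZMod (e i))}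

theorem ne0 (h : Cmb n r M e Λ) (i : Fin r) : NeZero (e i) := ⟨by have := h.two i; omega⟩

theorem pre (h : Cmb n r M e Λ) (I : Finset (Fin r)) (hI : I.card ≤ n) (b : ∀ i, ZMod (e i)) :
    ∃ l ∈ Λ, ∀ i ∈ I, l i = b i := by
  have := ne0 h
  choose! ρ hρ using h.sur I hI
  refine ⟨∑ i ∈ I, (b i).val • ρ i, AddSubgroup.sum_mem _ fun i hi =>
    AddSubgroup.nsmul_mem _ (hρ i hi).1 _, fun i' hi' => ?_⟩
  rw [Finset.sum_apply, Finset.sum_eq_single i']
  · rw [Pi.smul_apply, (hρ i' hi').2.1, nsmul_eq_mul, mul_one, ZMod.natCast_zmod_val]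
  · intro i hi hne
    rw [Pi.smul_apply, (hρ i hi).2.2 i' hi' (Ne.symm hne), smul_zero]
  · intro hcon
    exact absurd hi' hcon

/-- prescribe coordinates in the coset of `x` -/
theorem pre' (h : Cmb n r M e Λ) (I : Finset (Fin r)) (hI : I.card ≤ n)
    (b x : ∀ i, ZMod (e i)) : ∃ y, y - x ∈ Λ ∧ ∀ i ∈ I, y i = b i := by
  obtain ⟨l, hl, hl'⟩ := pre h I hI (b - x)
  refine ⟨x + l, by rwa [add_sub_cancel_left], fun i hi => ?_⟩
  rw [Pi.add_apply, hl' i hi, Pi.sub_apply, add_sub_cancel]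

theorem top (h : Cmb n r M e Λ) (I : Finset (Fin r)) (hI : I.card ≤ n) (x : ∀ i, ZMod (e i)) :
    ∃ y, y - x ∈ Λ ∧ ∀ i ∈ I, (y i).val = e i - 1 := by
  have := ne0 h
  obtain ⟨y, hy, hy'⟩ := pre' h I hI (fun i => ((e i - 1 : ℕ) : ZMod (e i))) x
  refine ⟨y, hy, fun i hi => ?_⟩
  rw [hy' i hi, ZMod.val_natCast, Nat.mod_eq_of_lt]
  have := h.two i
  omega

/-- the averaging argument for the digits -/
theorem digit_avg (h : Cmb n r M e Λ) (i₀ : Fin r) (ν : ℕ) (hM : M = e i₀ * ν) (hν : 0 < ν)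
    (hj : ∀ j, j ≠ i₀ → e j = M) (J : Finset (Fin r)) (hJ : J.card + 1 = n)
    (z : ∀ i, ZMod (e i)) : ∃ y, y - z ∈ Λ ∧ (∀ i ∈ J, y i = z i) ∧ y i₀ = z i₀ ∧
      (∀ t, t ≠ i₀ → (y t).val % e i₀ = (z t).val % e i₀) ∧
      (Finset.univ \ insert i₀ J).card * (ν - 1) ≤
        2 * ∑ t ∈ Finset.univ \ insert i₀ J, (y t).val / e i₀ := by
  classical
  have hne := ne0 h
  let H : AddSubgroup (∀ i, ZMod (e i)) :=
    { carrier := {l | l ∈ Λ ∧ ∀ i ∈ J, l i = 0}
      zero_mem' := ⟨Λ.zero_mem, fun _ _ => rfl⟩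
      add_mem' := by
        rintro a b ⟨ha, ha'⟩ ⟨hb, hb'⟩
        refine ⟨Λ.add_mem ha hb, fun i hi => ?_⟩
        rw [Pi.add_apply, ha' i hi, hb' i hi, add_zero]
      neg_mem' := by
        rintro a ⟨ha, ha'⟩
        refine ⟨Λ.neg_mem ha, fun i hi => ?_⟩
        rw [Pi.neg_apply, ha' i hi, neg_zero] }
  let G : AddSubgroup (∀ i, ZMod (e i)) := H.map (nsmulAddMonoidHom (e i₀))
  obtain ⟨x, hx, hx'⟩ := exists_ge_avg G (Finset.univ \ insert i₀ J)
    (fun t y => (((y t).val / e i₀ : ℕ) : ℚ)) (fun _ => ((ν : ℚ) - 1) / 2) (by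
      intro t ht
      simp only [Finset.mem_sdiff, Finset.mem_univ, true_and, Finset.mem_insert, not_or] at ht
      obtain ⟨l, hl, hl'⟩ := pre h (insert t J)
        (by rw [Finset.card_insert_of_notMem ht.2]; omega)
        (fun i => if i = t then 1 else 0)
      have hlt : l t = 1 := by
        rw [hl' t (Finset.mem_insert_self _ _), if_pos rfl]
      refine ⟨e i₀ • l, ⟨l, ⟨hl, fun i hi => ?_⟩, rfl⟩, ν, hν, fun y => ?_⟩
      · rw [hl' i (Finset.mem_insert_of_mem hi), if_neg]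
        rintro rfl
        exact ht.2 hi
      · have het : e t = e i₀ * ν := (hj t ht.1).trans hM
        have h1 : ∀ c : ℕ, (y + c • (e i₀ • l)) t = y t + ((e i₀ * c : ℕ) : ZMod (e t)) := by
          intro c
          rw [Pi.add_apply, Pi.smul_apply, Pi.smul_apply, hlt]
          push_cast
          simp only [nsmul_eq_mul, mul_one]
          ring
        have h2 := sum_digit het (y t)
        have h3 : ∑ c ∈ Finset.range ν, ((((y + c • (e i₀ • l)) t).val / e i₀ : ℕ) : ℚ) =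
            ((∑ c ∈ Finset.range ν, (y t + ((e i₀ * c : ℕ) : ZMod (e t))).val / e i₀ : ℕ) : ℚ) := by
          rw [Nat.cast_sum]
          exact Finset.sum_congr rfl fun c _ => by rw [h1 c]
        rw [h3]
        have h4 : ((∑ c ∈ Finset.range ν, (y t + ((e i₀ * c : ℕ) : ZMod (e t))).val / e i₀ : ℕ) : ℚ)
            * 2 = ν * (ν - 1) := by
          have h5 := congrArg (fun k : ℕ => (k : ℚ)) h2
          push_cast [Nat.cast_sub (show 1 ≤ ν from hν)] at h5 ⊢
          exact h5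
        linarith) z
  obtain ⟨l, ⟨hl, hl'⟩, rfl⟩ := hx
  have hcoord : ∀ i, (z + (nsmulAddMonoidHom (e i₀)) l) i =
      z i + ((e i₀ * (l i).val : ℕ) : ZMod (e i)) := by
    intro i
    rw [Pi.add_apply, ← nsmul_eq]
    rfl
  refine ⟨z + (nsmulAddMonoidHom (e i₀)) l, ?_, fun i hi => ?_, ?_, fun t ht => ?_, ?_⟩
  · rw [add_sub_cancel_left]
    exact Λ.nsmul_mem hl _
  · rw [hcoord, hl' i hi, ZMod.val_zero, mul_zero, Nat.cast_zero, add_zero]
  · rw [hcoord, Nat.cast_mul, ZMod.natCast_self, zero_mul, add_zero]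
  · rw [hcoord]
    exact mod_add_mul ((hj t ht).trans hM) _ _
  · rw [Finset.sum_const, nsmul_eq_mul] at hx'
    have h6 : ((Finset.univ \ insert i₀ J).card : ℚ) * (ν - 1) ≤
        2 * ∑ t ∈ Finset.univ \ insert i₀ J,
          ((((z + (nsmulAddMonoidHom (e i₀)) l) t).val / e i₀ : ℕ) : ℚ) := by
      linarith
    have h7 : (((Finset.univ \ insert i₀ J).card * (ν - 1) : ℕ) : ℚ) ≤
        ((2 * ∑ t ∈ Finset.univ \ insert i₀ J,
          ((z + (nsmulAddMonoidHom (e i₀)) l) t).val / e i₀ : ℕ) : ℚ) := by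
      push_cast [Nat.cast_sub (show 1 ≤ ν from hν)]
      exact h6
    exact_mod_cast h7

/-- the value -/
theorem val_split (h : Cmb n r M e Λ) (i₀ : Fin r) (ν : ℕ) (hM : M = e i₀ * ν)
    (hj : ∀ j, j ≠ i₀ → e j = M) (J : Finset (Fin r)) (hJ : J.card + 1 = n) (hi₀ : i₀ ∉ J)
    (y : ∀ i, ZMod (e i)) (hy : ∀ i ∈ J, (y i).val = e i - 1) (hy₀ : (y i₀).val = e i₀ - 1) :
    Val M e y = (n - 1) * (M - 1) + (e i₀ - 1) * ν +
      ∑ t ∈ Finset.univ \ insert i₀ J, (y t).val := by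
  classical
  have hMpos : 0 < M := Nat.pos_of_ne_zero h.M0
  unfold Val
  rw [← Finset.sum_sdiff (Finset.subset_univ (insert i₀ J)), Finset.sum_insert hi₀]
  have h1 : M / e i₀ = ν := by
    rw [hM]
    exact Nat.mul_div_cancel_left _ (by have := h.two i₀; omega)
  have h2 : ∑ i ∈ J, (y i).val * (M / e i) = (n - 1) * (M - 1) := by
    have h3 : ∀ i ∈ J, (y i).val * (M / e i) = M - 1 := by
      intro i hi
      have h4 : e i = M := hj i (fun h5 => hi₀ (h5 ▸ hi))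
      rw [hy i hi, h4, Nat.div_self hMpos, mul_one]
    rw [Finset.sum_congr rfl h3, Finset.sum_const, smul_eq_mul]
    congr 1
    omega
  have h5 : ∑ t ∈ Finset.univ \ insert i₀ J, (y t).val * (M / e t) =
      ∑ t ∈ Finset.univ \ insert i₀ J, (y t).val := by
    refine Finset.sum_congr rfl fun t ht => ?_
    simp only [Finset.mem_sdiff, Finset.mem_univ, true_and, Finset.mem_insert, not_or] at ht
    have h6 : M / e t = 1 := by rw [hj t ht.1, Nat.div_self hMpos]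
    rw [h6, mul_one]
  rw [h1, h2, h5, hy₀]
  ring

theorem card_T (hr : r = n + 3) (i₀ : Fin r) (J : Finset (Fin r)) (hJ : J.card + 1 = n)
    (hi₀ : i₀ ∉ J) : (Finset.univ \ insert i₀ J).card = 3 := by
  classical
  rw [Finset.card_sdiff_of_subset (Finset.subset_univ _), Finset.card_insert_of_notMem hi₀,
    Finset.card_univ, Fintype.card_fin]
  omega

theorem t_SPK1 : S_SPK1 := by
  classical
  intro n r M e Λ h hr i₀ ν hM hν hs hj J x hJ hi₀
  obtain ⟨z, hz, hz'⟩ := top h (insert i₀ J) (by rw [Finset.card_insert_of_notMem hi₀]; omega) x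
  obtain ⟨y, hy, hyJ, hy₀, -, hsum⟩ := digit_avg h i₀ ν hM (by omega) hj J hJ z
  have hyJ' : ∀ i ∈ J, (y i).val = e i - 1 := fun i hi => by
    rw [hyJ i hi]; exact hz' i (Finset.mem_insert_of_mem hi)
  have hy₀' : (y i₀).val = e i₀ - 1 := by
    rw [hy₀]; exact hz' i₀ (Finset.mem_insert_self _ _)
  refine ⟨y, ?_, hyJ', ?_⟩
  · have := Λ.add_mem hy hz
    rwa [sub_add_sub_cancel] at this
  · rw [val_split h i₀ ν hM hj J hJ hi₀ y hyJ' hy₀']
    rw [card_T hr i₀ J hJ hi₀] at hsum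
    set S := ∑ t ∈ Finset.univ \ insert i₀ J, (y t).val with hS
    have h1 : e i₀ * ∑ t ∈ Finset.univ \ insert i₀ J, (y t).val / e i₀ ≤ S := by
      rw [hS, Finset.mul_sum]
      exact Finset.sum_le_sum fun t _ => Nat.mul_div_le _ _
    set D := ∑ t ∈ Finset.univ \ insert i₀ J, (y t).val / e i₀ with hD
    obtain ⟨s, hse⟩ : ∃ s, e i₀ = s + 3 := ⟨e i₀ - 3, by omega⟩
    obtain ⟨w, rfl⟩ : ∃ w, ν = w + 4 := ⟨ν - 4, by omega⟩
    obtain ⟨k, rfl⟩ : ∃ k, n = k + 1 := ⟨n - 1, by omega⟩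
    rw [hse] at hM h1 ⊢
    have e1 : w + 4 - 1 = w + 3 := by omega
    have e2 : s + 3 - 1 = s + 2 := by omega
    have e3 : k + 1 - 1 = k := by omega
    rw [e1] at hsum
    rw [e2, e3]
    have h2 : 3 * ((s + 3) * (w + 3)) ≤ 2 * S := by nlinarith
    obtain ⟨m, hm⟩ : ∃ m, M = m + 1 := ⟨M - 1, by have := h.M0; omega⟩
    have e4 : M - 1 = m := by omega
    rw [e4]
    have h3 : m + 1 = (s + 3) * (w + 4) := by rw [← hm, hM]
    rw [hm]
    nlinarith

end Pool.Agent.K3h51.HY
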