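import Pool.Agent.K3h51.HY.Lib

/-! # Project HY (helper47): bricks SPK2 and SPK3 (helper51) -/

set_option autoImplicit false

namespace Pool.Agent.K3h51.HY

open Pool.Agent.K3h47.HY

variable {n r M : ℕ} {e : Fin r → ℕ} {Λ : AddSubgroup (∀ i, ZMod (e i))}

/-- the residue modulo `q` -/
def res (q : ℕ) {m : ℕ} (a : ZMod m) : ZMod q := (a.cast : ZMod q)

theorem res_hom {q m : ℕ} (h : q ∣ m) (a : ZMod m) : res q a = ZMod.castHom h (ZMod q) a := rfl

theorem res_val {q m : ℕ} [NeZero m] (a : ZMod m) : res q a = ((a.val : ℕ) : ZMod q) :=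
  ZMod.cast_eq_val a

/-- linear relations between residues -/
theorem lin (h : Cmb n r M e Λ) (q : ℕ) (J' : Finset (Fin r)) (j u t : Fin r)
    (hcard : J'.card + 2 ≤ n) (hj : j ∉ J') (hu : u ∉ J') (ht : t ∉ J')
    (hjt : j ≠ t) (hut : u ≠ t) (hq : q ∣ e t) (hq1 : 1 < q)
    (hP : ∀ l ∈ Λ, (∀ i ∈ J', l i = 0) → l j = 0 → l u = 0 → res q (l t) = 0) :
    ∀ a ∈ Λ, (∀ i ∈ J', a i = 0) → a j = 1 → a u = 0 →
    ∀ b ∈ Λ, (∀ i ∈ J', b i = 0) → b j = 0 → b u = 1 →
    (∀ l ∈ Λ, (∀ i ∈ J', l i = 0) →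
      res q (l t) = ((l j).val : ZMod q) * res q (a t) + ((l u).val : ZMod q) * res q (b t)) ∧
    res q (a t) ≠ 0 ∧ res q (b t) ≠ 0 := by
  classical
  have hne := ne0 h
  intro a ha haJ haj hau b hb hbJ hbj hbu
  have key : ∀ l ∈ Λ, (∀ i ∈ J', l i = 0) →
      res q (l t) = ((l j).val : ZMod q) * res q (a t) + ((l u).val : ZMod q) * res q (b t) := by
    intro l hl hlJ
    have h1 := hP (l - (l j).val • a - (l u).val • b)
      (Λ.sub_mem (Λ.sub_mem hl (Λ.nsmul_mem ha _)) (Λ.nsmul_mem hb _))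
      (fun i hi => by
        rw [Pi.sub_apply, Pi.sub_apply, Pi.smul_apply, Pi.smul_apply, hlJ i hi, haJ i hi, hbJ i hi,
          smul_zero, smul_zero, sub_zero, sub_zero])
      (by
        rw [Pi.sub_apply, Pi.sub_apply, Pi.smul_apply, Pi.smul_apply, haj, hbj, smul_zero,
          nsmul_eq_mul, mul_one, ZMod.natCast_zmod_val, sub_zero, sub_self])
      (by
        rw [Pi.sub_apply, Pi.sub_apply, Pi.smul_apply, Pi.smul_apply, hau, hbu, smul_zero,
          nsmul_eq_mul, mul_one, ZMod.natCast_zmod_val, sub_zero, sub_self])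
    rw [Pi.sub_apply, Pi.sub_apply, Pi.smul_apply, Pi.smul_apply, res_hom hq, map_sub, map_sub,
      map_nsmul, map_nsmul, nsmul_eq_mul, nsmul_eq_mul] at h1
    rw [res_hom hq, res_hom hq, res_hom hq]
    linear_combination h1
  refine ⟨key, fun h0 => ?_, fun h0 => ?_⟩
  · obtain ⟨l, hl, hl'⟩ := pre h (insert u (insert t J')) (by
      rw [Finset.card_insert_of_notMem, Finset.card_insert_of_notMem ht]
      · omega
      · rw [Finset.mem_insert, not_or]
        exact ⟨hut, hu⟩) (fun i => if i = t then 1 else 0)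
    have h1 := key l hl (fun i hi => by
      rw [hl' i (Finset.mem_insert_of_mem (Finset.mem_insert_of_mem hi)), if_neg]
      rintro rfl
      exact ht hi)
    have h2 : l t = 1 := by
      rw [hl' t (Finset.mem_insert_of_mem (Finset.mem_insert_self _ _)), if_pos rfl]
    have h3 : l u = 0 := by
      rw [hl' u (Finset.mem_insert_self _ _), if_neg hut]
    rw [h2, h3, h0, ZMod.val_zero, res_hom hq, map_one] at h1
    simp only [mul_zero, Nat.cast_zero, zero_mul, add_zero] at h1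
    have : Fact (1 < q) := ⟨hq1⟩
    exact one_ne_zero h1
  · obtain ⟨l, hl, hl'⟩ := pre h (insert j (insert t J')) (by
      rw [Finset.card_insert_of_notMem, Finset.card_insert_of_notMem ht]
      · omega
      · rw [Finset.mem_insert, not_or]
        exact ⟨hjt, hj⟩) (fun i => if i = t then 1 else 0)
    have h1 := key l hl (fun i hi => by
      rw [hl' i (Finset.mem_insert_of_mem (Finset.mem_insert_of_mem hi)), if_neg]
      rintro rfl
      exact ht hi)
    have h2 : l t = 1 := by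
      rw [hl' t (Finset.mem_insert_of_mem (Finset.mem_insert_self _ _)), if_pos rfl]
    have h3 : l j = 0 := by
      rw [hl' j (Finset.mem_insert_self _ _), if_neg hjt]
    rw [h2, h3, h0, ZMod.val_zero, res_hom hq, map_one] at h1
    simp only [mul_zero, Nat.cast_zero, zero_mul, add_zero] at h1
    have : Fact (1 < q) := ⟨hq1⟩
    exact one_ne_zero h1

theorem zmod2 (a : ZMod 2) (h : a ≠ 0) : a = 1 := by
  revert a
  decide

theorem claimA (h : Cmb n r M e Λ) (hn : 2 ≤ n) (hr : r = n + 3) (i₀ : Fin r) (ν : ℕ)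
    (hM : M = 2 * ν) (hj : ∀ j, j ≠ i₀ → e j = M) (J : Finset (Fin r))
    (hJ : J.card + 1 = n) (hi₀ : i₀ ∉ J) :
    ∃ μ ∈ Λ, (∀ i ∈ J, μ i = 0) ∧ μ i₀ = 0 ∧
      ∃ t ∈ Finset.univ \ insert i₀ J, (μ t).val % 2 = 1 := by
  classical
  have hne := ne0 h
  by_contra hcon
  push Not at hcon
  obtain ⟨t1, ht1, t2, ht2, h12⟩ := Finset.one_lt_card.1
    (show 1 < (Finset.univ \ insert i₀ J).card by rw [card_T hr i₀ J hJ hi₀]; norm_num)
  obtain ⟨j, hjJ⟩ := Finset.card_pos.1 (show 0 < J.card by omega)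
  have hJ'card : (J.erase j).card + 2 = n := by
    rw [Finset.card_erase_of_mem hjJ]; omega
  have hji : j ≠ i₀ := fun h1 => hi₀ (h1 ▸ hjJ)
  have hiJ' : i₀ ∉ J.erase j := fun h1 => hi₀ (Finset.mem_of_mem_erase h1)
  have hjJ' : j ∉ J.erase j := Finset.notMem_erase j J
  obtain ⟨a, ha, ha'⟩ := pre h (insert i₀ (insert j (J.erase j))) (by
    rw [Finset.card_insert_of_notMem, Finset.card_insert_of_notMem hjJ']
    · omega
    · rw [Finset.mem_insert, not_or]
      exact ⟨hji.symm, hiJ'⟩) (fun i => if i = j then 1 else 0)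
  obtain ⟨b, hb, hb'⟩ := pre h (insert i₀ (insert j (J.erase j))) (by
    rw [Finset.card_insert_of_notMem, Finset.card_insert_of_notMem hjJ']
    · omega
    · rw [Finset.mem_insert, not_or]
      exact ⟨hji.symm, hiJ'⟩) (fun i => if i = i₀ then 1 else 0)
  have key : ∀ t ∈ Finset.univ \ insert i₀ J, ∀ l ∈ Λ, (∀ i ∈ J.erase j, l i = 0) →
      res 2 (l t) = ((l j).val : ZMod 2) + ((l i₀).val : ZMod 2) := by
    intro t ht
    simp only [Finset.mem_sdiff, Finset.mem_univ, true_and, Finset.mem_insert, not_or] at ht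
    have het : e t = M := hj t ht.1
    obtain ⟨k1, k2, k3⟩ := lin h 2 (J.erase j) j i₀ t (by omega) hjJ' hiJ'
      (fun h1 => ht.2 (Finset.mem_of_mem_erase h1)) (fun h1 => ht.2 (h1 ▸ hjJ)) (Ne.symm ht.1)
      (by rw [het, hM]; exact Dvd.intro _ rfl) (by norm_num)
      (by
        intro l hl hlJ hlj hlu
        have h2 := hcon l hl (fun i hi => by
          by_cases hij : i = j
          · rw [hij, hlj]
          · exact hlJ i (Finset.mem_erase.2 ⟨hij, hi⟩)) hlu t (by
          simp only [Finset.mem_sdiff, Finset.mem_univ, true_and, Finset.mem_insert, not_or]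
          exact ht)
        rw [res_val, ZMod.natCast_eq_zero_iff]
        omega)
      a ha (fun i hi => by
        rw [ha' i (Finset.mem_insert_of_mem (Finset.mem_insert_of_mem hi)), if_neg]
        rintro rfl
        exact hjJ' hi)
      (by rw [ha' j (Finset.mem_insert_of_mem (Finset.mem_insert_self _ _)), if_pos rfl])
      (by rw [ha' i₀ (Finset.mem_insert_self _ _), if_neg hji.symm])
      b hb (fun i hi => by
        rw [hb' i (Finset.mem_insert_of_mem (Finset.mem_insert_of_mem hi)), if_neg]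
        rintro rfl
        exact hiJ' hi)
      (by rw [hb' j (Finset.mem_insert_of_mem (Finset.mem_insert_self _ _)), if_neg hji])
      (by rw [hb' i₀ (Finset.mem_insert_self _ _), if_pos rfl])
    intro l hl hlJ
    rw [k1 l hl hlJ, zmod2 _ k2, zmod2 _ k3, mul_one, mul_one]
  have ht1' := ht1
  have ht2' := ht2
  simp only [Finset.mem_sdiff, Finset.mem_univ, true_and, Finset.mem_insert, not_or] at ht1' ht2'
  have n1 : t1 ∉ J.erase j := fun h1 => ht1'.2 (Finset.mem_of_mem_erase h1)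
  have n2 : t2 ∉ J.erase j := fun h1 => ht2'.2 (Finset.mem_of_mem_erase h1)
  obtain ⟨l, hl, hl'⟩ := pre h (insert t1 (insert t2 (J.erase j))) (by
    rw [Finset.card_insert_of_notMem, Finset.card_insert_of_notMem n2]
    · omega
    · rw [Finset.mem_insert, not_or]
      exact ⟨h12, n1⟩) (fun i => if i = t1 then 1 else 0)
  have hlJ : ∀ i ∈ J.erase j, l i = 0 := fun i hi => by
    rw [hl' i (Finset.mem_insert_of_mem (Finset.mem_insert_of_mem hi)), if_neg]
    rintro rfl
    exact n1 hi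
  have e1 := key t1 ht1 l hl hlJ
  have e2 := key t2 ht2 l hl hlJ
  have q1 : l t1 = 1 := by rw [hl' t1 (Finset.mem_insert_self _ _), if_pos rfl]
  have q2 : l t2 = 0 := by
    rw [hl' t2 (Finset.mem_insert_of_mem (Finset.mem_insert_self _ _)), if_neg h12.symm]
  rw [← e2, q1, q2, res_hom (show 2 ∣ e t1 by rw [hj t1 ht1'.1, hM]; exact Dvd.intro _ rfl),
    res_hom (show 2 ∣ e t2 by rw [hj t2 ht2'.1, hM]; exact Dvd.intro _ rfl), map_one,
    map_zero] at e1
  exact one_ne_zero e1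

theorem t_SPK2 : S_SPK2 := by
  classical
  intro n r M e Λ h hn hr i₀ ν hM he hj J x hJ hi₀
  have hne := ne0 h
  have hM' : M = e i₀ * ν := by rw [he, hM]
  have hνpos : 0 < ν := by
    rcases Nat.eq_zero_or_pos ν with h0 | h0
    · exact absurd (by rw [hM, h0]) h.M0
    · exact h0
  have hz : ∃ z, z - x ∈ Λ ∧ (∀ i ∈ J, (z i).val = e i - 1) ∧ (z i₀).val = e i₀ - 1 ∧
      ∃ t ∈ Finset.univ \ insert i₀ J, (z t).val % 2 = 1 := by
    obtain ⟨z, hz, hz'⟩ := top h (insert i₀ J)
      (by rw [Finset.card_insert_of_notMem hi₀]; omega) x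
    by_cases hodd : ∃ t ∈ Finset.univ \ insert i₀ J, (z t).val % 2 = 1
    · exact ⟨z, hz, fun i hi => hz' i (Finset.mem_insert_of_mem hi),
        hz' i₀ (Finset.mem_insert_self _ _), hodd⟩
    · push Not at hodd
      obtain ⟨μ, hμ, hμJ, hμ₀, t, ht, hμt⟩ := claimA h hn hr i₀ ν hM hj J hJ hi₀
      refine ⟨z + μ, ?_, fun i hi => ?_, ?_, t, ht, ?_⟩
      · rw [add_sub_right_comm]
        exact Λ.add_mem hz hμ
      · rw [Pi.add_apply, hμJ i hi, add_zero]
        exact hz' i (Finset.mem_insert_of_mem hi)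
      · rw [Pi.add_apply, hμ₀, add_zero]
        exact hz' i₀ (Finset.mem_insert_self _ _)
      · have h1 := hodd t ht
        simp only [Finset.mem_sdiff, Finset.mem_univ, true_and, Finset.mem_insert, not_or] at ht
        have h2 : 2 ∣ e t := by rw [hj t ht.1, hM]; exact Dvd.intro _ rfl
        rw [Pi.add_apply, ZMod.val_add, Nat.mod_mod_of_dvd _ h2]
        omega
  obtain ⟨z, hz, hzJ, hz₀, t, ht, hzt⟩ := hz
  obtain ⟨y, hy, hyJ, hy₀, hres, hsum⟩ := digit_avg h i₀ ν hM' hνpos hj J hJ z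
  have hyJ' : ∀ i ∈ J, (y i).val = e i - 1 := fun i hi => by
    rw [hyJ i hi]; exact hzJ i hi
  have hy₀' : (y i₀).val = e i₀ - 1 := by rw [hy₀]; exact hz₀
  refine ⟨y, ?_, hyJ', ?_⟩
  · have := Λ.add_mem hy hz
    rwa [sub_add_sub_cancel] at this
  · rw [val_split h i₀ ν hM' hj J hJ hi₀ y hyJ' hy₀']
    rw [card_T hr i₀ J hJ hi₀] at hsum
    have ht' := ht
    simp only [Finset.mem_sdiff, Finset.mem_univ, true_and, Finset.mem_insert, not_or] at ht'
    have h1 : e i₀ * ∑ t ∈ Finset.univ \ insert i₀ J, (y t).val / e i₀ + 1 ≤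
        ∑ t ∈ Finset.univ \ insert i₀ J, (y t).val := by
      have h2 : ∑ t ∈ Finset.univ \ insert i₀ J, (y t).val =
          ∑ t ∈ Finset.univ \ insert i₀ J, (e i₀ * ((y t).val / e i₀) + (y t).val % e i₀) :=
        Finset.sum_congr rfl fun u _ => (Nat.div_add_mod _ _).symm
      rw [h2, Finset.sum_add_distrib, ← Finset.mul_sum]
      have h3 : (y t).val % e i₀ ≤ ∑ t ∈ Finset.univ \ insert i₀ J, (y t).val % e i₀ :=
        Finset.single_le_sum (f := fun t => (y t).val % e i₀) (fun _ _ => Nat.zero_le _) ht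
      have h4 : (y t).val % e i₀ = 1 := by rw [hres t ht'.1, he, hzt]
      omega
    set S := ∑ t ∈ Finset.univ \ insert i₀ J, (y t).val with hS
    set D := ∑ t ∈ Finset.univ \ insert i₀ J, (y t).val / e i₀ with hD
    obtain ⟨w, rfl⟩ : ∃ w, ν = w + 1 := ⟨ν - 1, by omega⟩
    obtain ⟨k, rfl⟩ : ∃ k, n = k + 1 := ⟨n - 1, by omega⟩
    rw [he] at h1 ⊢
    have e1 : w + 1 - 1 = w := by omega
    have e3 : k + 1 - 1 = k := by omega
    rw [e1] at hsum
    rw [e3]
    have e4 : M - 1 = 2 * w + 1 := by omega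
    rw [e4, hM]
    nlinarith

end Pool.Agent.K3h51.HY
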